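import Pool.Agent.H81.N6D.SUB

/-!
# Row DANI: anisotropic forms
-/

set_option autoImplicit false

open MeasureTheory Pool.Agent.H28.N6

namespace Pool.Agent.H81.N6D.ANI

open Pool.Agent.H81.N6D.SUB

theorem qf_smul_vec {F : Type} [NontriviallyNormedField F] {n : ℕ}
    (G : Matrix (Fin n) (Fin n) F) (x : F) (z : Fin n → F) : qf G (x • z) = x ^ 2 * qf G z := by
  unfold qf
  rw [Matrix.mulVec_smul, dotProduct_smul, smul_dotProduct, smul_eq_mul, smul_eq_mul]
  ring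

theorem lower2 {F : Type} [NontriviallyNormedField F] [ProperSpace F] {n : ℕ}
    (G : Matrix (Fin n) (Fin n) F) (hG : Ani G) :
    ∃ c : ℝ, 0 < c ∧ ∀ z : Fin n → F, c * ‖z‖ ^ 2 ≤ ‖qf G z‖ := by
  have hnorm : ∀ z : Fin n → F, z ≠ 0 → ∃ l, z l ≠ 0 ∧ ‖z‖ = ‖z l‖ := by
    intro z hz
    have hne : Nonempty (Fin n) := by
      by_contra h
      rw [not_nonempty_iff] at h
      exact hz (Subsingleton.elim _ _)
    obtain ⟨l, hl⟩ := Finite.exists_max fun i => ‖z i‖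
    have h1 : ‖z‖ = ‖z l‖ :=
      le_antisymm ((pi_norm_le_iff_of_nonneg (norm_nonneg _)).2 hl) (norm_le_pi_norm z l)
    refine ⟨l, fun h => hz ?_, h1⟩
    rw [h, norm_zero] at h1
    exact norm_eq_zero.1 h1
  rcases (Metric.sphere (0 : Fin n → F) 1).eq_empty_or_nonempty with he | hne
  · refine ⟨1, one_pos, fun z => ?_⟩
    by_cases hz : z = 0
    · rw [hz, norm_zero]
      simp
    · exfalso
      obtain ⟨l, hl0, hl⟩ := hnorm z hz
      have : (z l)⁻¹ • z ∈ Metric.sphere (0 : Fin n → F) 1 := by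
        rw [mem_sphere_zero_iff_norm, norm_smul, norm_inv, hl,
          inv_mul_cancel₀ (norm_ne_zero_iff.2 hl0)]
      rw [he] at this
      exact this
  · obtain ⟨x0, hx0, hmin⟩ := (isCompact_sphere (0 : Fin n → F) 1).exists_isMinOn hne
      (qf_cont G).norm.continuousOn
    have hx00 : x0 ≠ 0 := by
      rintro rfl
      rw [mem_sphere_zero_iff_norm, norm_zero] at hx0
      exact zero_ne_one hx0
    refine ⟨‖qf G x0‖, norm_pos_iff.2 (hG x0 hx00), fun z => ?_⟩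
    by_cases hz : z = 0
    · rw [hz, norm_zero]
      simp
    · obtain ⟨l, hl0, hl⟩ := hnorm z hz
      have h1 : (z l)⁻¹ • z ∈ Metric.sphere (0 : Fin n → F) 1 := by
        rw [mem_sphere_zero_iff_norm, norm_smul, norm_inv, hl,
          inv_mul_cancel₀ (norm_ne_zero_iff.2 hl0)]
      have h2 : ‖qf G x0‖ ≤ ‖qf G ((z l)⁻¹ • z)‖ := hmin h1
      rw [qf_smul_vec, norm_mul, norm_pow, norm_inv] at h2
      have h3 : 0 < ‖z l‖ := norm_pos_iff.2 hl0
      rw [hl]
      calc ‖qf G x0‖ * ‖z l‖ ^ 2 ≤ ‖z l‖⁻¹ ^ 2 * ‖qf G z‖ * ‖z l‖ ^ 2 :=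
            mul_le_mul_of_nonneg_right h2 (by positivity)
        _ = ‖qf G z‖ := by field_simp

theorem pf_ANI (hBAL : T_BAL) : T_ANI := by
  intro F _ _ _ _ _ D n G hG
  have hp := p_pos D
  have hp1 := D.p1
  have hq := D.hq
  have hq0 : (0 : ℝ) < D.q := by positivity
  have hpow : ∀ i j : ℕ, ‖D.p‖ ^ i ≤ ‖D.p‖ ^ j ↔ j ≤ i := fun i j =>
    pow_le_pow_iff_right_of_lt_one₀ hp hp1
  obtain ⟨c0, hc0, hc⟩ := lower2 G hG
  obtain ⟨m0, hm0⟩ := exists_pow hp.le hp1 (C := 1) hc0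
  rw [mul_one] at hm0
  have hrec : ∀ m, m0 ≤ m → V D G 0 (m + 2) = ((D.q : ℝ) ^ n)⁻¹ * V D G 0 m := by
    intro m hm
    have h1 := (hBAL F D (Fin n)).2.2.1 {z : Fin n → F | (∀ i, ‖z i‖ ≤ 1) ∧
      ‖qf G z + 0‖ ≤ ‖D.p‖ ^ (m + 2)} 1 D.p (pow_one _).symm
    have h2 : ((fun z : Fin n → F => D.p • z) ⁻¹' {z : Fin n → F | (∀ i, ‖z i‖ ≤ 1) ∧
        ‖qf G z + 0‖ ≤ ‖D.p‖ ^ (m + 2)}) =
        {z : Fin n → F | (∀ i, ‖z i‖ ≤ 1) ∧ ‖qf G z + 0‖ ≤ ‖D.p‖ ^ m} := by
      ext z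
      simp only [Set.mem_preimage, Set.mem_ofPred_eq, add_zero, Pi.smul_apply, norm_smul,
        qf_smul_vec, norm_mul, norm_pow]
      constructor
      · rintro ⟨-, h3⟩
        have h4 : ‖qf G z‖ ≤ ‖D.p‖ ^ m := by
          rw [pow_add, mul_comm] at h3
          exact le_of_mul_le_mul_right h3 (by positivity)
        refine ⟨?_, h4⟩
        have h5 : c0 * ‖z‖ ^ 2 ≤ c0 * 1 := by
          rw [mul_one]
          exact (hc z).trans (h4.trans (((hpow m m0).2 hm).trans hm0.le))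
        have h6 : ‖z‖ ^ 2 ≤ 1 := le_of_mul_le_mul_left h5 hc0
        have h7 : ‖z‖ ≤ 1 := by
          by_contra h8
          push Not at h8
          nlinarith [norm_nonneg z]
        exact fun i => (norm_le_pi_norm z i).trans h7
      · rintro ⟨h3, h4⟩
        refine ⟨fun i => mul_le_one₀ hp1.le (norm_nonneg _) (h3 i), ?_⟩
        rw [pow_add, mul_comm]
        exact mul_le_mul_of_nonneg_right h4 (by positivity)
    rw [h2, pow_one, Fintype.card_fin] at h1
    unfold V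
    rw [h1]
    field_simp
  refine ⟨⟨m0, hrec⟩, ?_⟩
  have hs0 : (0 : ℝ) < Real.sqrt D.q := Real.sqrt_pos.2 hq0
  obtain ⟨r, hr⟩ : ∃ r : ℕ → ℝ, ∀ m, r m = V D G 0 m * Real.sqrt D.q ^ (n * m) :=
    ⟨_, fun _ => rfl⟩
  have hV : ∀ m, 0 < V D G 0 m := by
    intro m
    refine (hBAL F D (Fin n)).2.2.2.2.2 _ ?_ ?_ ?_
    · have h1 : {z : Fin n → F | (∀ i, ‖z i‖ ≤ 1) ∧ ‖qf G z + 0‖ ≤ ‖D.p‖ ^ m} =
          (⋂ i, {z : Fin n → F | ‖z i‖ ≤ 1}) ∩ {z : Fin n → F | ‖qf G z + 0‖ ≤ ‖D.p‖ ^ m} := by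
        ext z
        simp
      rw [h1]
      refine (isOpen_iInter_of_finite fun i => open_le _ (continuous_apply i) one_ne_zero).inter ?_
      exact open_le (fun z : Fin n → F => qf G z + 0) ((qf_cont G).add continuous_const)
        (by positivity)
    · refine ⟨0, fun i => ?_, ?_⟩
      · rw [Pi.zero_apply, norm_zero]
        exact zero_le_one
      · have : qf G (0 : Fin n → F) = 0 := by
          unfold qf
          rw [zero_dotProduct]
        rw [this, add_zero, norm_zero]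
        positivity
    · refine (Metric.isBounded_closedBall (x := (0 : Fin n → F)) (r := 1)).subset fun z hz => ?_
      rw [mem_closedBall_zero_iff, pi_norm_le_iff_of_nonneg zero_le_one]
      exact hz.1
  have hr0 : ∀ m, 0 < r m := fun m => by
    rw [hr]
    exact mul_pos (hV m) (by positivity)
  have hrr : ∀ m, m0 ≤ m → r (m + 2) = r m := by
    intro m hm
    rw [hr, hr, hrec m hm]
    have h1 : Real.sqrt D.q ^ (n * (m + 2)) = Real.sqrt D.q ^ (n * m) * (D.q : ℝ) ^ n := by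
      have h2 : (D.q : ℝ) ^ n = Real.sqrt D.q ^ (2 * n) := by
        rw [pow_mul, Real.sq_sqrt hq0.le]
      rw [h2, ← pow_add]
      congr 1
      ring
    rw [h1]
    field_simp
  have hex : ∀ m, ∃ m' ∈ Finset.range (m0 + 2), r m = r m' := by
    intro m
    induction m using Nat.strong_induction_on with
    | _ m ih =>
      by_cases hm : m < m0 + 2
      · exact ⟨m, Finset.mem_range.2 hm, rfl⟩
      · obtain ⟨k, rfl⟩ : ∃ k, m = k + 2 := ⟨m - 2, by omega⟩
        obtain ⟨m', hm', h1⟩ := ih k (by omega)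
        exact ⟨m', hm', by rw [hrr k (by omega), h1]⟩
  have hne : (Finset.range (m0 + 2)).Nonempty := ⟨0, Finset.mem_range.2 (by omega)⟩
  obtain ⟨m1, -, hm1⟩ := Finset.exists_min_image (Finset.range (m0 + 2)) r hne
  obtain ⟨m2, -, hm2⟩ := Finset.exists_max_image (Finset.range (m0 + 2)) r hne
  refine ⟨r m1, r m2, hr0 m1, fun m => ?_⟩
  obtain ⟨m', hm', h1⟩ := hex m
  have h2 := hm1 m' hm'
  have h3 := hm2 m' hm'
  rw [← h1, hr m] at h2 h3
  have h4 : (0 : ℝ) < Real.sqrt D.q ^ (n * m) := by positivity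
  constructor
  · rw [← div_eq_mul_inv, div_le_iff₀ h4]
    exact h2
  · rw [← div_eq_mul_inv, le_div_iff₀ h4]
    exact h3

end Pool.Agent.H81.N6D.ANI
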