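import Pool.Agent.H28.N6.Targets

/-!
# Row DHVF: the volumes for the hyperbolic plane
-/

set_option autoImplicit false

open MeasureTheory Pool.Agent.H28.N6

namespace Pool.Agent.H81.N6D

section

variable {F : Type} [NontriviallyNormedField F]

theorem p_pos [MeasurableSpace F] (D : Dat F) : 0 < ‖D.p‖ := norm_pos_iff.2 D.p0

theorem next_le [MeasurableSpace F] (D : Dat F) {s : F} {i : ℕ} (h : ‖s‖ < ‖D.p‖ ^ i) :
    ‖s‖ ≤ ‖D.p‖ ^ (i + 1) := by
  have hp := p_pos D
  have h1 : ‖s / D.p ^ i‖ < 1 := by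
    rw [norm_div, norm_pow, div_lt_one (by positivity)]
    exact h
  have h2 := D.gen _ h1
  rw [norm_div, norm_pow, div_le_iff₀ (by positivity)] at h2
  rw [pow_succ, mul_comm]
  exact h2

theorem open_le [IsUltrametricDist F] {X : Type} [TopologicalSpace X] (f : X → F)
    (hf : Continuous f) {r : ℝ} (hr : r ≠ 0) : IsOpen {x | ‖f x‖ ≤ r} := by
  have h1 := (IsUltrametricDist.isOpen_closedBall (0 : F) hr).preimage hf
  have h2 : {x | ‖f x‖ ≤ r} = f ⁻¹' Metric.closedBall 0 r := by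
    ext x
    simp
  rw [h2]
  exact h1

theorem bounded_box {ι : Type} [Fintype ι] {A : Set (ι → F)} (hA : ∀ z ∈ A, ∀ i, ‖z i‖ ≤ 1) :
    Bornology.IsBounded A := by
  refine (Metric.isBounded_closedBall (x := (0 : ι → F)) (r := 1)).subset fun z hz => ?_
  rw [mem_closedBall_zero_iff, pi_norm_le_iff_of_nonneg zero_le_one]
  exact hA z hz

/-- volumes on `F ^ 1` -/
theorem vol_one [MeasurableSpace F] (D : Dat F) (S : Set F) :
    vol D {y : Fin 1 → F | y 0 ∈ S} = (D.μ S).toReal := by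
  unfold vol
  congr 1
  exact (measurePreserving_funUnique D.μ (Fin 1)).measure_preimage_equiv S

/-- balls -/
theorem real_ball [IsUltrametricDist F] [ProperSpace F] [MeasurableSpace F] [BorelSpace F]
    (hONE : T_ONE) (D : Dat F) (i : ℕ) :
    D.μ.real {s : F | ‖s‖ ≤ ‖D.p‖ ^ i} = ((D.q : ℝ) ^ i)⁻¹ := by
  have h1 := hONE F D id 0 i (fun s t _ _ => by simp) (Nat.zero_le i)
  rw [pow_zero, id, norm_zero, if_pos zero_le_one, Nat.sub_zero] at h1
  rw [← h1]
  unfold Measure.real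
  congr 2
  ext s
  simp only [Set.mem_ofPred_eq, id]
  refine ⟨fun h => ⟨h.trans (pow_le_one₀ (norm_nonneg _) D.p1.le), h⟩, fun h => h.2⟩

theorem ball_ne_top [IsUltrametricDist F] [ProperSpace F] [MeasurableSpace F] [BorelSpace F]
    (hONE : T_ONE) (D : Dat F) (i : ℕ) : D.μ {s : F | ‖s‖ ≤ ‖D.p‖ ^ i} ≠ ⊤ := by
  intro h
  have h1 := real_ball hONE D i
  unfold Measure.real at h1
  rw [h, ENNReal.toReal_top] at h1
  have hq := D.hq
  have h2 : (0 : ℝ) < ((D.q : ℝ) ^ i)⁻¹ := by positivity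
  rw [← h1] at h2
  exact lt_irrefl _ h2

theorem pf_HVF (hONE : T_ONE) (hFUB : T_FUB) : T_HVF := by
  intro F _ _ _ _ _ D a m
  have hp := p_pos D
  have hp1 := D.p1
  have hq := D.hq
  have hq0 : (0 : ℝ) < D.q := by positivity
  obtain ⟨A, hA⟩ : ∃ A : Set (Fin (1 + 1) → F), A = {z : Fin (1 + 1) → F | (∀ i, ‖z i‖ ≤ 1) ∧
      ‖z 0 * z 1 + a‖ ≤ ‖D.p‖ ^ m} := ⟨_, rfl⟩
  have hAo : IsOpen A := by
    rw [hA]
    have h1 : {z : Fin (1 + 1) → F | (∀ i, ‖z i‖ ≤ 1) ∧ ‖z 0 * z 1 + a‖ ≤ ‖D.p‖ ^ m} =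
        (⋂ i, {z : Fin (1 + 1) → F | ‖z i‖ ≤ 1}) ∩
          {z : Fin (1 + 1) → F | ‖z 0 * z 1 + a‖ ≤ ‖D.p‖ ^ m} := by
      ext z
      simp
    rw [h1]
    refine (isOpen_iInter_of_finite fun i => open_le _ (continuous_apply i) one_ne_zero).inter ?_
    exact open_le (fun z : Fin (1 + 1) → F => z 0 * z 1 + a) (by fun_prop) (by positivity)
  have hAb : Bornology.IsBounded A := bounded_box (by rw [hA]; exact fun z hz => hz.1)
  have h1 : hv D a m = vol D A := by
    unfold hv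
    rw [hA]
  rw [h1, (hFUB F D 1 A hAo hAb 0).1]
  -- the integrand
  obtain ⟨c, hc⟩ : ∃ c : ℕ → ℝ, ∀ i, c i =
      if ‖a‖ ≤ ‖D.p‖ ^ i then ((D.q : ℝ) ^ (m - i))⁻¹ else 0 := ⟨_, fun _ => rfl⟩
  obtain ⟨B, hB⟩ : ∃ B : ℕ → Set F, ∀ i, B i = {s : F | ‖s‖ ≤ ‖D.p‖ ^ i} := ⟨_, fun _ => rfl⟩
  have hBm : ∀ i, MeasurableSet (B i) := fun i => by
    rw [hB]
    exact measurableSet_le measurable_norm measurable_const
  have hpow : ∀ i j : ℕ, ‖D.p‖ ^ i ≤ ‖D.p‖ ^ j ↔ j ≤ i := fun i j =>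
    pow_le_pow_iff_right_of_lt_one₀ hp hp1
  have hg : ∀ s : F, vol D {y : Fin 1 → F | (0 : Fin (1 + 1)).insertNth s y ∈ A} =
      ∑ i ∈ Finset.range m, (B i \ B (i + 1)).indicator (fun _ => c i) s +
        (B m).indicator (fun _ => c m) s := by
    intro s
    have h2 : {y : Fin 1 → F | (0 : Fin (1 + 1)).insertNth s y ∈ A} =
        {y : Fin 1 → F | y 0 ∈ {t : F | ‖s‖ ≤ 1 ∧ ‖t‖ ≤ 1 ∧ ‖s * t + a‖ ≤ ‖D.p‖ ^ m}} := by
      ext y
      rw [hA]
      simp only [Set.mem_ofPred_eq, Fin.forall_fin_two, Fin.insertNth_zero]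
      simp [and_assoc]
    rw [h2, vol_one]
    by_cases hs1 : ‖s‖ ≤ 1
    · by_cases hsm : ‖s‖ ≤ ‖D.p‖ ^ m
      · have h3 : ∑ i ∈ Finset.range m, (B i \ B (i + 1)).indicator (fun _ => c i) s = 0 := by
          refine Finset.sum_eq_zero fun i hi => Set.indicator_of_notMem ?_ _
          rw [hB (i + 1)]
          rintro ⟨-, h4⟩
          exact h4 (hsm.trans ((hpow m (i + 1)).2 (Finset.mem_range.1 hi)))
        rw [h3, zero_add, Set.indicator_of_mem (by rw [hB]; exact hsm), hc, Nat.sub_self, pow_zero,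
          inv_one]
        have hst : ∀ t : F, ‖t‖ ≤ 1 → ‖s * t‖ ≤ ‖D.p‖ ^ m := fun t ht => by
          rw [norm_mul]
          exact (mul_le_of_le_one_right (norm_nonneg _) ht).trans hsm
        split_ifs with ha
        · have h5 : {t : F | ‖s‖ ≤ 1 ∧ ‖t‖ ≤ 1 ∧ ‖s * t + a‖ ≤ ‖D.p‖ ^ m} = {x : F | ‖x‖ ≤ 1} := by
            ext t
            simp only [Set.mem_ofPred_eq]
            refine ⟨fun h => h.2.1, fun h => ⟨hs1, h, ?_⟩⟩
            exact (IsUltrametricDist.norm_add_le_max _ _).trans (max_le (hst t h) ha)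
          rw [h5, D.one]
          rfl
        · have h5 : {t : F | ‖s‖ ≤ 1 ∧ ‖t‖ ≤ 1 ∧ ‖s * t + a‖ ≤ ‖D.p‖ ^ m} = ∅ := by
            ext t
            simp only [Set.mem_ofPred_eq, Set.mem_empty_iff_false, iff_false]
            rintro ⟨-, h, h'⟩
            apply ha
            have h6 : a = (s * t + a) + -(s * t) := by ring
            rw [h6]
            refine (IsUltrametricDist.norm_add_le_max _ _).trans (max_le h' ?_)
            rw [norm_neg]
            exact hst t h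
          rw [h5, measure_empty]
          rfl
      · -- a shell
        have hex : ∃ j : ℕ, ¬ ‖s‖ ≤ ‖D.p‖ ^ j := ⟨m, hsm⟩
        obtain ⟨i, hi⟩ : ∃ i, Nat.find hex = i + 1 := by
          refine Nat.exists_eq_succ_of_ne_zero fun h0 => ?_
          have := Nat.find_spec hex
          rw [h0, pow_zero] at this
          exact this hs1
        have h3 : ¬ ‖s‖ ≤ ‖D.p‖ ^ (i + 1) := by
          rw [← hi]
          exact Nat.find_spec hex
        have h4 : ‖s‖ ≤ ‖D.p‖ ^ i := by
          have := Nat.find_min hex (m := i) (by omega)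
          push Not at this
          exact this
        have h5 : ‖s‖ = ‖D.p‖ ^ i := by
          refine le_antisymm h4 ?_
          by_contra h6
          push Not at h6
          exact h3 (next_le D h6)
        have him : i < m := by
          by_contra h6
          push Not at h6
          exact hsm (h4.trans ((hpow i m).2 h6))
        rw [Set.indicator_of_notMem (s := B m) (by rw [hB]; exact hsm), add_zero,
          Finset.sum_eq_single i (fun j _ hj => Set.indicator_of_notMem (by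
            rw [hB, hB]
            rintro ⟨h6, h7⟩
            rw [Set.mem_ofPred_eq, h5, hpow] at h6 h7
            omega) _) (fun h => absurd (Finset.mem_range.2 him) h),
          Set.indicator_of_mem (by rw [hB, hB]; exact ⟨h4, h3⟩), hc]
        have h6 := hONE F D (fun t => s * t + a) i m (fun u t _ _ => by
          have : s * u + a - (s * t + a) = s * (u - t) := by ring
          rw [this, norm_mul, h5]) him.le
        rw [mul_zero, zero_add] at h6
        rw [← h6]
        congr 2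
        ext t
        simp [hs1]
    · have h3 : ∀ i, s ∉ B i := fun i hi => by
        rw [hB] at hi
        exact hs1 (hi.trans (pow_le_one₀ (norm_nonneg _) hp1.le))
      have h4 : {t : F | ‖s‖ ≤ 1 ∧ ‖t‖ ≤ 1 ∧ ‖s * t + a‖ ≤ ‖D.p‖ ^ m} = ∅ := by
        ext t
        simp [hs1]
      rw [h4, measure_empty, Set.indicator_of_notMem (h3 m), add_zero]
      refine (Finset.sum_eq_zero fun i _ => Set.indicator_of_notMem ?_ _).symm
      exact fun h => h3 i h.1
  simp only [hg]
  have hBf : ∀ i, D.μ (B i) ≠ ⊤ := fun i => by rw [hB]; exact ball_ne_top hONE D i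
  have hint : ∀ (S : Set F) (r : ℝ), MeasurableSet S → D.μ S ≠ ⊤ →
      Integrable (S.indicator fun _ => r) D.μ := fun S r hS hSf =>
    (integrable_indicator_iff hS).2 (integrableOn_const hSf)
  have hdf : ∀ i, D.μ (B i \ B (i + 1)) ≠ ⊤ := fun i =>
    ne_top_of_le_ne_top (hBf i) (measure_mono Set.sdiff_subset)
  rw [integral_add (integrable_finsetSum _ fun i _ =>
      hint _ _ ((hBm i).diff (hBm (i + 1))) (hdf i)) (hint _ _ (hBm m) (hBf m)),
    integral_finsetSum _ fun i _ => hint _ _ ((hBm i).diff (hBm (i + 1))) (hdf i),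
    integral_indicator_const _ (hBm m)]
  have h7 : ∀ i ∈ Finset.range m, ∫ s, (B i \ B (i + 1)).indicator (fun _ => c i) s ∂D.μ =
      if ‖a‖ ≤ ‖D.p‖ ^ i then (1 - (D.q : ℝ)⁻¹) * ((D.q : ℝ) ^ m)⁻¹ else 0 := by
    intro i hi
    have him := Finset.mem_range.1 hi
    rw [integral_indicator_const _ ((hBm i).diff (hBm (i + 1))),
      measureReal_sdiff (by
        rw [hB, hB]
        exact fun s (hs : ‖s‖ ≤ ‖D.p‖ ^ (i + 1)) => hs.trans ((hpow (i + 1) i).2 (Nat.le_succ i)))
        (hBm (i + 1)) (hBf _), hB, hB, real_ball hONE, real_ball hONE, hc]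
    split_ifs
    · have h8 : (D.q : ℝ) ^ m = (D.q : ℝ) ^ i * (D.q : ℝ) ^ (m - i) := by
        rw [← pow_add]
        congr 1
        omega
      rw [h8, smul_eq_mul, pow_succ]
      field_simp
    · rw [smul_zero]
  rw [Finset.sum_congr rfl h7, ← Finset.sum_filter, Finset.sum_const, nsmul_eq_mul, hB, real_ball hONE,
    hc, Nat.sub_self, pow_zero, inv_one, mul_comm]
  congr 1
  split_ifs
  · rw [smul_eq_mul, mul_one]
  · rw [smul_zero]

end

end Pool.Agent.H81.N6D
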