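import Pool.Agent.H28.N6.Targets

/-!
# Row DSUB: nondegenerate level sets
-/

set_option autoImplicit false

open MeasureTheory Pool.Agent.H28.N6

namespace Pool.Agent.H81.N6D.SUB

section

variable {F : Type} [NontriviallyNormedField F]

theorem p_pos [MeasurableSpace F] (D : Dat F) : 0 < ‖D.p‖ := norm_pos_iff.2 D.p0

theorem open_le [IsUltrametricDist F] {X : Type} [TopologicalSpace X] (f : X → F)
    (hf : Continuous f) {r : ℝ} (hr : r ≠ 0) : IsOpen {x | ‖f x‖ ≤ r} := by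
  have h1 := (IsUltrametricDist.isOpen_closedBall (0 : F) hr).preimage hf
  have h2 : {x | ‖f x‖ ≤ r} = f ⁻¹' Metric.closedBall 0 r := by
    ext x
    simp
  rw [h2]
  exact h1

theorem qf_cont {n : ℕ} (G : Matrix (Fin n) (Fin n) F) : Continuous fun z => qf G z := by
  unfold qf dotProduct Matrix.mulVec dotProduct
  fun_prop

theorem mv_cont {n : ℕ} (G : Matrix (Fin n) (Fin n) F) :
    Continuous fun z : Fin n → F => fun i => 2 * G.mulVec z i := by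
  unfold Matrix.mulVec dotProduct
  fun_prop

theorem qf_smul {n : ℕ} (x : F) (G : Matrix (Fin n) (Fin n) F) (z : Fin n → F) :
    qf (x • G) z = x * qf G z := by
  unfold qf
  rw [Matrix.smul_mulVec, dotProduct_smul, smul_eq_mul]

/-- the box of radius `r` -/
def bx {n : ℕ} (r : ℝ) (z0 : Fin n → F) : Set (Fin n → F) := {z | ∀ l, ‖z l - z0 l‖ ≤ r}

theorem bx_open [IsUltrametricDist F] {n : ℕ} {r : ℝ} (hr : r ≠ 0) (z0 : Fin n → F) :
    IsOpen (bx r z0) := by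
  have h1 : bx r z0 = ⋂ l, {z : Fin n → F | ‖z l - z0 l‖ ≤ r} := by
    ext z
    simp [bx]
  rw [h1]
  exact isOpen_iInter_of_finite fun l => open_le (fun z : Fin n → F => z l - z0 l)
    (by fun_prop) hr

theorem bx_bdd {n : ℕ} {r : ℝ} (hr : 0 ≤ r) (z0 : Fin n → F) : Bornology.IsBounded (bx r z0) := by
  refine (Metric.isBounded_closedBall (x := z0) (r := r)).subset fun z hz => ?_
  rw [Metric.mem_closedBall, dist_pi_le_iff hr]
  intro l
  rw [dist_eq_norm]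
  exact hz l

theorem bx_eq [IsUltrametricDist F] {n : ℕ} {r : ℝ} {z0 z1 : Fin n → F} (h : z1 ∈ bx r z0) :
    bx r z0 = bx r z1 := by
  ext z
  constructor
  · intro hz l
    have h1 : z l - z1 l = (z l - z0 l) + -(z1 l - z0 l) := by ring
    rw [h1]
    refine (IsUltrametricDist.norm_add_le_max _ _).trans (max_le (hz l) ?_)
    rw [norm_neg]
    exact h l
  · intro hz l
    have h1 : z l - z0 l = (z l - z1 l) + (z1 l - z0 l) := by ring
    rw [h1]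
    exact (IsUltrametricDist.norm_add_le_max _ _).trans (max_le (hz l) (h l))

theorem bx_self {n : ℕ} {r : ℝ} (hr : 0 ≤ r) (z0 : Fin n → F) : z0 ∈ bx r z0 := by
  intro l
  rw [sub_self, norm_zero]
  exact hr

/-- the uniform lower bound -/
theorem lower (h2 : (2 : F) ≠ 0) {n : ℕ} (G : Matrix (Fin n) (Fin n) F) {K : Set (Fin n → F)}
    {A : Set F} (hK : IsCompact K) (hA : IsCompact A)
    (h : ∀ z ∈ K, ∀ a ∈ A, qf G z + a = 0 → G.mulVec z ≠ 0) :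
    ∃ c : ℝ, 0 < c ∧ ∀ z ∈ K, ∀ a ∈ A, c ≤ ‖qf G z + a‖ ∨ ∃ i, c ≤ ‖2 * G.mulVec z i‖ := by
  rcases (K ×ˢ A).eq_empty_or_nonempty with he | hne
  · refine ⟨1, one_pos, fun z hz a ha => ?_⟩
    have : (z, a) ∈ K ×ˢ A := ⟨hz, ha⟩
    rw [he] at this
    exact absurd this (Set.notMem_empty _)
  · have hcont : Continuous fun x : (Fin n → F) × F =>
        max ‖qf G x.1 + x.2‖ ‖fun i => 2 * G.mulVec x.1 i‖ := by
      refine Continuous.max ?_ ?_
      · exact (((qf_cont G).comp continuous_fst).add continuous_snd).norm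
      · exact ((mv_cont G).comp continuous_fst).norm
    obtain ⟨x0, hx0, hmin⟩ := (hK.prod hA).exists_isMinOn hne hcont.continuousOn
    obtain ⟨c, hc⟩ : ∃ c, c = max ‖qf G x0.1 + x0.2‖ ‖fun i => 2 * G.mulVec x0.1 i‖ := ⟨_, rfl⟩
    have hc0 : 0 < c := by
      rw [hc, lt_max_iff]
      by_cases h0 : qf G x0.1 + x0.2 = 0
      · right
        rw [norm_pos_iff]
        intro h3
        apply h x0.1 hx0.1 x0.2 hx0.2 h0
        funext i
        have h4 := congrFun h3 i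
        simp only [Pi.zero_apply] at h4
        exact (mul_eq_zero.1 h4).resolve_left h2
      · left
        exact norm_pos_iff.2 h0
    refine ⟨c, hc0, fun z hz a ha => ?_⟩
    have h3 := hmin (show (z, a) ∈ K ×ˢ A from ⟨hz, ha⟩)
    have h4 : c ≤ max ‖qf G z + a‖ ‖fun i => 2 * G.mulVec z i‖ := by
      rw [hc]
      exact h3
    rcases le_max_iff.1 h4 with h5 | h5
    · exact Or.inl h5
    · right
      by_contra h6
      push Not at h6
      exact absurd ((pi_norm_lt_iff hc0).2 h6) (not_lt.2 h5)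

/-- BOX for all dimensions -/
theorem box [IsUltrametricDist F] [ProperSpace F] [MeasurableSpace F] [BorelSpace F]
    (hBOX : T_BOX) (D : Dat F) {n : ℕ} (G : Matrix (Fin n) (Fin n) F) (z0 : Fin n → F)
    (i : Fin n) (j k : ℕ) (a : F) (hG : G.transpose = G)
    (h1 : ‖2 * G.mulVec z0 i‖ = ‖D.p‖ ^ k) (h2 : ∀ u v, ‖D.p‖ ^ j * ‖G u v‖ < ‖D.p‖ ^ k)
    (m : ℕ) (hm : j + k ≤ m) :
    vol D {z | z ∈ bx (‖D.p‖ ^ j) z0 ∧ ‖qf G z + a‖ ≤ ‖D.p‖ ^ m} =
      ((D.q : ℝ) ^ (m - (j + k)))⁻¹ *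
        vol D {z | z ∈ bx (‖D.p‖ ^ j) z0 ∧ ‖qf G z + a‖ ≤ ‖D.p‖ ^ (j + k)} := by
  cases n with
  | zero => exact i.elim0
  | succ n => exact hBOX F D n G z0 i j k a hG h1 h2 m hm

theorem exists_pow {x : ℝ} (hx : 0 ≤ x) (hx1 : x < 1) {C r : ℝ} (hr : 0 < r) :
    ∃ e : ℕ, x ^ e * C < r := by
  obtain ⟨e, he⟩ := exists_pow_lt_of_lt_one (show 0 < r / (|C| + 1) by positivity) hx1
  refine ⟨e, ?_⟩
  rw [lt_div_iff₀ (by positivity)] at he
  have h1 : x ^ e * C ≤ x ^ e * (|C| + 1) :=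
    mul_le_mul_of_nonneg_left ((le_abs_self C).trans (by linarith)) (by positivity)
  linarith

theorem pf_SUB (hBOX : T_BOX) (hBAL : T_BAL) (hNRM : T_NRM) : T_SUB := by
  classical
  intro F _ _ _ _ _ D h2 n G K A hG hK hKo hA h
  have hp := p_pos D
  have hp1 := D.p1
  have hq := D.hq
  have hq0 : (0 : ℝ) < D.q := by positivity
  have hpow : ∀ i j : ℕ, ‖D.p‖ ^ i ≤ ‖D.p‖ ^ j ↔ j ≤ i := fun i j =>
    pow_le_pow_iff_right_of_lt_one₀ hp hp1
  have hpowl : ∀ i j : ℕ, ‖D.p‖ ^ i < ‖D.p‖ ^ j ↔ j < i := fun i j =>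
    pow_lt_pow_iff_right_of_lt_one₀ hp hp1
  obtain ⟨c, hc0, hc⟩ := lower h2 G hK hA h
  -- the power `e`
  obtain ⟨C, hC⟩ := hK.exists_bound_of_continuousOn (mv_cont G).continuousOn
  obtain ⟨e, he⟩ := exists_pow hp.le hp1 (C := C) one_pos
  have he' : ∀ z ∈ K, ∀ i, ‖D.p‖ ^ e * ‖2 * G.mulVec z i‖ ≤ 1 := by
    intro z hz i
    have h3 := norm_le_pi_norm (fun i => 2 * G.mulVec z i) i
    have h4 : ‖2 * G.mulVec z i‖ ≤ C := h3.trans (hC z hz)
    exact (mul_le_mul_of_nonneg_left h4 (by positivity)).trans he.le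
  -- the power `k1`
  obtain ⟨k1, hk1⟩ := exists_pow hp.le hp1 (C := 1) (show 0 < ‖D.p‖ ^ e * c by positivity)
  rw [mul_one] at hk1
  -- the radius
  obtain ⟨δ, hδ0, hδ⟩ := hK.exists_thickening_subset_open hKo subset_rfl
  have hj : ∃ j : ℕ, ‖D.p‖ ^ j < δ ∧ ∀ u v, ‖D.p‖ ^ j * (‖D.p‖ ^ e * ‖G u v‖) < ‖D.p‖ ^ k1 := by
    obtain ⟨j1, hj1⟩ := exists_pow hp.le hp1 (C := 1) hδ0
    have h3 : ∀ u v, ∃ j : ℕ, ‖D.p‖ ^ j * (‖D.p‖ ^ e * ‖G u v‖) < ‖D.p‖ ^ k1 := fun u v =>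
      exists_pow hp.le hp1 (by positivity)
    choose f hf using h3
    refine ⟨j1 + ∑ u, ∑ v, f u v, ?_, fun u v => ?_⟩
    · refine lt_of_le_of_lt ((hpow _ j1).2 (Nat.le_add_right _ _)) ?_
      rwa [mul_one] at hj1
    · refine lt_of_le_of_lt (mul_le_mul_of_nonneg_right ((hpow _ (f u v)).2 ?_)
        (by positivity)) (hf u v)
      have h4 : f u v ≤ ∑ v, f u v :=
        Finset.single_le_sum (f := fun v => f u v) (fun _ _ => Nat.zero_le _) (Finset.mem_univ v)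
      have h5 : ∑ v, f u v ≤ ∑ u, ∑ v, f u v :=
        Finset.single_le_sum (f := fun u => ∑ v, f u v) (fun _ _ => Nat.zero_le _)
          (Finset.mem_univ u)
      omega
  obtain ⟨j, hjδ, hjG⟩ := hj
  obtain ⟨r, hr⟩ : ∃ r, r = ‖D.p‖ ^ j := ⟨_, rfl⟩
  have hr0 : 0 < r := by rw [hr]; positivity
  have hbK : ∀ z ∈ K, bx r z ⊆ K := by
    intro z hz w hw
    refine hδ (Metric.mem_thickening_iff.2 ⟨z, hz, ?_⟩)
    refine lt_of_le_of_lt ((dist_pi_le_iff hr0.le).2 fun l => ?_) (hr ▸ hjδ)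
    rw [dist_eq_norm]
    exact hw l
  obtain ⟨t, htK, htc⟩ := hK.elim_nhds_subcover (fun z => bx r z)
    fun z _ => (bx_open hr0.ne' z).mem_nhds (bx_self hr0.le z)
  refine ⟨j + k1, fun a ha => ?_⟩
  have hSo : ∀ m : ℕ, IsOpen {z : Fin n → F | ‖qf G z + a‖ ≤ ‖D.p‖ ^ m} := fun m =>
    open_le (fun z => qf G z + a) ((qf_cont G).add continuous_const) (by positivity)
  -- one box
  have hone : ∀ z0 ∈ K, ∃ α : ℝ, ∀ m, j + k1 ≤ m →
      vol D {z | z ∈ bx r z0 ∧ ‖qf G z + a‖ ≤ ‖D.p‖ ^ m} = α * ((D.q : ℝ) ^ m)⁻¹ := by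
    intro z0 hz0
    by_cases hcase : ∃ z1 ∈ bx r z0, ∃ i, c ≤ ‖2 * G.mulVec z1 i‖
    · obtain ⟨z1, hz1, i, hi⟩ := hcase
      rw [bx_eq hz1]
      have hz1K : z1 ∈ K := hbK z0 hz0 hz1
      obtain ⟨x, hx⟩ : ∃ x : F, x = D.p ^ e := ⟨_, rfl⟩
      have hxn : ‖x‖ = ‖D.p‖ ^ e := by rw [hx, norm_pow]
      have hmv : ∀ z i, 2 * (x • G).mulVec z i = x * (2 * G.mulVec z i) := by
        intro z i
        rw [Matrix.smul_mulVec, Pi.smul_apply, smul_eq_mul]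
        ring
      have h3 : ‖2 * (x • G).mulVec z1 i‖ = ‖D.p‖ ^ e * ‖2 * G.mulVec z1 i‖ := by
        rw [hmv, norm_mul, hxn]
      have h4 : ‖D.p‖ ^ k1 < ‖2 * (x • G).mulVec z1 i‖ := by
        rw [h3]
        exact hk1.trans_le (mul_le_mul_of_nonneg_left hi (by positivity))
      have h5 : 2 * (x • G).mulVec z1 i ≠ 0 := by
        rw [← norm_pos_iff]
        exact lt_trans (by positivity) h4
      obtain ⟨k', hk'⟩ := hNRM F D _ h5
      have h6 : 0 ≤ k' := by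
        have h7 : ‖D.p‖ ^ k' ≤ ‖D.p‖ ^ (0 : ℤ) := by
          rw [← hk', zpow_zero, h3]
          exact he' z1 hz1K i
        exact (zpow_le_zpow_iff_right_of_lt_one₀ hp hp1).1 h7
      obtain ⟨k, rfl⟩ := Int.eq_ofNat_of_zero_le h6
      rw [zpow_natCast] at hk'
      have hkk : k < k1 := by
        rw [hk', hpowl] at h4
        exact h4
      have hset : ∀ m, {z | z ∈ bx r z1 ∧ ‖qf G z + a‖ ≤ ‖D.p‖ ^ m} =
          {z | z ∈ bx (‖D.p‖ ^ j) z1 ∧ ‖qf (x • G) z + x * a‖ ≤ ‖D.p‖ ^ (m + e)} := by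
        intro m
        ext z
        rw [← hr]
        simp only [Set.mem_ofPred_eq]
        rw [qf_smul, ← mul_add, norm_mul, hxn, pow_add, mul_comm (‖D.p‖ ^ m),
          mul_le_mul_iff_right₀ (show 0 < ‖D.p‖ ^ e by positivity)]
      obtain ⟨V0, hV0⟩ : ∃ V0, V0 = vol D {z | z ∈ bx (‖D.p‖ ^ j) z1 ∧
        ‖qf (x • G) z + x * a‖ ≤ ‖D.p‖ ^ (j + k)} := ⟨_, rfl⟩
      refine ⟨V0 * (D.q : ℝ) ^ (j + k) / (D.q : ℝ) ^ e, fun m hm => ?_⟩
      rw [hset, box hBOX D (x • G) z1 i j k (x * a) (by rw [Matrix.transpose_smul, hG]) hk'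
        (fun u v => by
          rw [Matrix.smul_apply, norm_smul, hxn]
          exact (hjG u v).trans_le ((hpow k1 k).2 hkk.le)) (m + e) (by omega), ← hV0]
      have h8 : (D.q : ℝ) ^ m * (D.q : ℝ) ^ e =
          (D.q : ℝ) ^ (m + e - (j + k)) * (D.q : ℝ) ^ (j + k) := by
        rw [← pow_add, ← pow_add]
        congr 1
        omega
      have hq1 : (D.q : ℝ) ^ (m + e - (j + k)) ≠ 0 := by positivity
      have hq2 : (D.q : ℝ) ^ m ≠ 0 := by positivity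
      have hq3 : (D.q : ℝ) ^ e ≠ 0 := by positivity
      field_simp
      linear_combination V0 * h8
    · push Not at hcase
      refine ⟨0, fun m hm => ?_⟩
      have h3 : {z | z ∈ bx r z0 ∧ ‖qf G z + a‖ ≤ ‖D.p‖ ^ m} = ∅ := by
        ext z
        simp only [Set.mem_ofPred_eq, Set.mem_empty_iff_false, iff_false]
        rintro ⟨hz, hz'⟩
        rcases hc z (hbK z0 hz0 hz) a ha with h4 | ⟨i, h4⟩
        · have h5 : ‖D.p‖ ^ m ≤ ‖D.p‖ ^ k1 := (hpow m k1).2 (by omega)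
          have h6 : ‖D.p‖ ^ e * c ≤ 1 * c :=
            mul_le_mul_of_nonneg_right (pow_le_one₀ hp.le hp1.le) hc0.le
          linarith
        · exact absurd h4 (not_le.2 (hcase z hz i))
      rw [h3, zero_mul]
      unfold vol
      rw [measure_empty]
      rfl
  -- finite unions of boxes
  have hfin : ∀ s : Finset (Set (Fin n → F)), (∀ b ∈ s, ∃ z0 ∈ K, b = bx r z0) →
      ∃ α : ℝ, ∀ m, j + k1 ≤ m →
        vol D {z | (∃ b ∈ s, z ∈ b) ∧ ‖qf G z + a‖ ≤ ‖D.p‖ ^ m} = α * ((D.q : ℝ) ^ m)⁻¹ := by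
    intro s
    induction s using Finset.induction_on with
    | empty =>
      intro _
      refine ⟨0, fun m _ => ?_⟩
      have h3 : {z : Fin n → F | (∃ b ∈ (∅ : Finset (Set (Fin n → F))), z ∈ b) ∧
          ‖qf G z + a‖ ≤ ‖D.p‖ ^ m} = ∅ := by
        ext z
        simp
      rw [h3, zero_mul]
      unfold vol
      rw [measure_empty]
      rfl
    | insert b0 s hb0 ih =>
      intro hs
      obtain ⟨α1, hα1⟩ := ih fun b hb => hs b (Finset.mem_insert_of_mem hb)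
      obtain ⟨z0, hz0, rfl⟩ := hs b0 (Finset.mem_insert_self _ _)
      obtain ⟨α2, hα2⟩ := hone z0 hz0
      refine ⟨α2 + α1, fun m hm => ?_⟩
      have h3 : {z : Fin n → F | (∃ b ∈ insert (bx r z0) s, z ∈ b) ∧
          ‖qf G z + a‖ ≤ ‖D.p‖ ^ m} =
          {z | z ∈ bx r z0 ∧ ‖qf G z + a‖ ≤ ‖D.p‖ ^ m} ∪
            {z | (∃ b ∈ s, z ∈ b) ∧ ‖qf G z + a‖ ≤ ‖D.p‖ ^ m} := by
        ext z
        simp only [Finset.mem_insert, Set.mem_ofPred_eq, Set.mem_union]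
        constructor
        · rintro ⟨⟨b, hb | hb, hzb⟩, h4⟩
          · exact Or.inl ⟨hb ▸ hzb, h4⟩
          · exact Or.inr ⟨⟨b, hb, hzb⟩, h4⟩
        · rintro (⟨h4, h5⟩ | ⟨⟨b, hb, hzb⟩, h5⟩)
          · exact ⟨⟨_, Or.inl rfl, h4⟩, h5⟩
          · exact ⟨⟨b, Or.inr hb, hzb⟩, h5⟩
      have ho : IsOpen {z : Fin n → F | ∃ b ∈ s, z ∈ b} := by
        have h4 : {z : Fin n → F | ∃ b ∈ s, z ∈ b} = ⋃ b ∈ s, b := by
          ext z
          simp
        rw [h4]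
        refine isOpen_biUnion fun b hb => ?_
        obtain ⟨w, -, rfl⟩ := hs b (Finset.mem_insert_of_mem hb)
        exact bx_open hr0.ne' w
      have hsub : {z : Fin n → F | (∃ b ∈ s, z ∈ b) ∧ ‖qf G z + a‖ ≤ ‖D.p‖ ^ m} ⊆ K := by
        rintro z ⟨⟨b, hb, hzb⟩, -⟩
        obtain ⟨w, hw, rfl⟩ := hs b (Finset.mem_insert_of_mem hb)
        exact hbK w hw hzb
      have hdisj : Disjoint {z | z ∈ bx r z0 ∧ ‖qf G z + a‖ ≤ ‖D.p‖ ^ m}
          {z | (∃ b ∈ s, z ∈ b) ∧ ‖qf G z + a‖ ≤ ‖D.p‖ ^ m} := by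
        rw [Set.disjoint_left]
        rintro z ⟨hz1, -⟩ ⟨⟨b, hb, hzb⟩, -⟩
        obtain ⟨w, -, rfl⟩ := hs b (Finset.mem_insert_of_mem hb)
        apply hb0
        rw [bx_eq hz1, ← bx_eq hzb]
        exact hb
      have h5 := (hBAL F D (Fin n)).2.2.2.2.1
        {z | z ∈ bx r z0 ∧ ‖qf G z + a‖ ≤ ‖D.p‖ ^ m}
        {z | (∃ b ∈ s, z ∈ b) ∧ ‖qf G z + a‖ ≤ ‖D.p‖ ^ m}
        ((bx_open hr0.ne' z0).inter (hSo m)) (ho.inter (hSo m))
        ((bx_bdd hr0.le z0).subset fun z hz => hz.1) (hK.isBounded.subset hsub) hdisj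
      rw [h3, h5, hα1 m hm, hα2 m hm, add_mul]
  obtain ⟨α, hα⟩ := hfin (t.image fun z => bx r z) fun b hb => by
    obtain ⟨z, hz, rfl⟩ := Finset.mem_image.1 hb
    exact ⟨z, htK z hz, rfl⟩
  refine ⟨α, fun m hm => ?_⟩
  rw [← hα m hm]
  congr 1
  ext z
  simp only [Set.mem_ofPred_eq, Finset.mem_image]
  constructor
  · rintro ⟨hz, h3⟩
    obtain ⟨w, hw, hzw⟩ := Set.mem_iUnion₂.1 (htc hz)
    exact ⟨⟨_, ⟨w, hw, rfl⟩, hzw⟩, h3⟩
  · rintro ⟨⟨_, ⟨w, hw, rfl⟩, hzw⟩, h3⟩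
    exact ⟨hbK w (htK w hw) hzw, h3⟩

end

end Pool.Agent.H81.N6D.SUB
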